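import Pool.Agent.U856.BM.Stm2

/-!
# Project BM, package KZ: the chords of class zero which never meet the cut
-/

set_option autoImplicit false

open Set Filter Topology ComplexConjugate

namespace Pool.Agent.U55.BM.KZ

open Pool.Agent.U856.BM Relation

/-- the linear form `F (x, y) = a y - b x` -/
def FF (a b : ℝ) (x : ℂ) : ℝ := a * x.im - b * x.re

lemma uu_eq (a b : ℝ) (i : St) (x : ℂ) : uu a b i x = FF a b (G i x) / √(a ^ 2 + b ^ 2) := by
  simp only [uu, cr, dd, FF]; ring

lemma cr_eq (a b : ℝ) (x : ℂ) : cr (dd a b) x = FF a b x / √(a ^ 2 + b ^ 2) := by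
  simp only [cr, dd, FF]; ring

lemma dt_eq (a b : ℝ) (x : ℂ) : dt (dd a b) x = (a * x.re + b * x.im) / √(a ^ 2 + b ^ 2) := by
  simp only [dt, dd]; ring

lemma exit_iff {a b v α : ℝ} (hL : 0 < √(a ^ 2 + b ^ 2)) (i : St) (u : ℝ) (j : Fin 5) :
    Exit a b v α i u j ↔ 0 < a * (G i (nS α j)).re + b * (G i (nS α j)).im ∧
      (FF a b (G i (vS a b v α j)) < √(a ^ 2 + b ^ 2) * u ∨
        FF a b (G i (vS a b v α (j + 1))) < √(a ^ 2 + b ^ 2) * u) ∧
      (√(a ^ 2 + b ^ 2) * u < FF a b (G i (vS a b v α j)) ∨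
        √(a ^ 2 + b ^ 2) * u < FF a b (G i (vS a b v α (j + 1)))) := by
  unfold Exit
  rw [min_lt_iff, lt_max_iff, dt_eq, uu_eq, uu_eq, div_lt_iff₀' hL, div_lt_iff₀' hL,
    div_pos_iff_of_pos_right hL, lt_div_iff₀' hL, lt_div_iff₀' hL]

/-- reflection formula -/
lemma G_rs (α : ℝ) (j : Fin 5) (i : St) (x : ℂ) (hn : dt (nS α j) (nS α j) = 1) :
    G (rs α j i) x = G i x - (2 * dt (nS α j) x : ℝ) • G i (nS α j) := by
  obtain ⟨w, τ⟩ := i
  have hn' : (nS α j).re * (nS α j).re + (nS α j).im * (nS α j).im = 1 := hn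
  cases τ
  · simp only [G, rs, dt]
    apply Complex.ext
    · simp [pow_two]
      linear_combination (w.re * x.re + w.im * x.im) * hn'
    · simp [pow_two]
      linear_combination (w.im * x.re - w.re * x.im) * hn'
  · simp only [G, rs, dt]
    apply Complex.ext
    · simp [pow_two]
      linear_combination (w.re * x.re - w.im * x.im) * hn'
    · simp [pow_two]
      linear_combination (w.im * x.re + w.re * x.im) * hn'

lemma rs_rs (α : ℝ) (j : Fin 5) (i : St) (hn : dt (nS α j) (nS α j) = 1) :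
    rs α j (rs α j i) = i := by
  obtain ⟨w, τ⟩ := i
  have hn' : (nS α j).re * (nS α j).re + (nS α j).im * (nS α j).im = 1 := hn
  have h1 : nS α j * conj (nS α j) = 1 := by
    rw [Complex.mul_conj, Complex.normSq_apply, hn']; norm_num
  cases τ
  · simp only [rs]
    simp only [Prod.mk.injEq, Bool.not_false, Bool.not_true, if_true, and_true]
    simp only [Bool.false_eq_true, if_false, map_pow]
    linear_combination (w * (nS α j * conj (nS α j) + 1)) * h1
  · simp only [rs]
    simp only [Prod.mk.injEq, Bool.not_false, Bool.not_true, if_true, and_true]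
    simp only [Bool.false_eq_true, if_false, map_pow]
    linear_combination (w * (nS α j * conj (nS α j) + 1)) * h1

lemma nn3 (α : ℝ) : dt (nS α 3) (nS α 3) = 1 := by
  simp [dt, nS]
  nlinarith [Real.sin_sq_add_cos_sq α]

/-- the chord comes from the open cut -/
def Ent (a b v α : ℝ) (i : St) (u : ℝ) : Prop :=
  a * (G i (nS α 3)).re + b * (G i (nS α 3)).im < 0 ∧
      (FF a b (G i (vS a b v α 3)) < √(a ^ 2 + b ^ 2) * u ∨
        FF a b (G i (vS a b v α 4)) < √(a ^ 2 + b ^ 2) * u) ∧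
      (√(a ^ 2 + b ^ 2) * u < FF a b (G i (vS a b v α 3)) ∨
        √(a ^ 2 + b ^ 2) * u < FF a b (G i (vS a b v α 4)))

lemma FF_sub_smul (a b r : ℝ) (x y : ℂ) : FF a b (x - r • y) = FF a b x - r * FF a b y := by
  simp [FF]; ring

lemma ent_iff {a b v α : ℝ} (hL : 0 < √(a ^ 2 + b ^ 2)) (hs : Real.sin α ≠ 0) (hc : Real.cos α ≠ 0)
    (i : St) (u : ℝ) :
    Exit a b v α i u 3 ↔ Ent a b v α (rs α 3 i) (u - 2 * oS a b v 3 * cr (dd a b) (G i (nS α 3))) := by
  rw [exit_iff hL]
  have e34 : (3 : Fin 5) + 1 = 4 := rfl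
  rw [e34]
  unfold Ent
  have h0 : G (rs α 3 i) (nS α 3) = - G i (nS α 3) := by
    rw [G_rs _ _ _ _ (nn3 α), nn3 α]
    simp [two_smul]
  have hv3 : dt (nS α 3) (vS a b v α 3) = -v := by
    simp [dt, nS, vS]; field_simp
  have hv4 : dt (nS α 3) (vS a b v α 4) = -v := by
    simp [dt, nS, vS]; field_simp
  have h3 : FF a b (G (rs α 3 i) (vS a b v α 3)) =
      FF a b (G i (vS a b v α 3)) + 2 * v * FF a b (G i (nS α 3)) := by
    rw [G_rs _ _ _ _ (nn3 α), FF_sub_smul, hv3]; ring
  have h4 : FF a b (G (rs α 3 i) (vS a b v α 4)) =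
      FF a b (G i (vS a b v α 4)) + 2 * v * FF a b (G i (nS α 3)) := by
    rw [G_rs _ _ _ _ (nn3 α), FF_sub_smul, hv4]; ring
  have ho : oS a b v 3 = -v := rfl
  have hu : √(a ^ 2 + b ^ 2) * (u - 2 * oS a b v 3 * cr (dd a b) (G i (nS α 3))) =
      √(a ^ 2 + b ^ 2) * u + 2 * v * FF a b (G i (nS α 3)) := by
    rw [ho, cr_eq]; field_simp; ring
  rw [h0, h3, h4, hu]
  simp only [Complex.neg_re, Complex.neg_im]
  constructor
  · rintro ⟨k0, k1, k2⟩
    refine ⟨by linarith, ?_, ?_⟩
    · rcases k1 with k | k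
      · left; linarith
      · right; linarith
    · rcases k2 with k | k
      · left; linarith
      · right; linarith
  · rintro ⟨k0, k1, k2⟩
    refine ⟨by linarith, ?_, ?_⟩
    · rcases k1 with k | k
      · left; linarith
      · right; linarith
    · rcases k2 with k | k
      · left; linarith
      · right; linarith


/-- numerical facts on the parameters -/
structure Fa (a b v α : ℝ) : Prop where
  ha : 0 < a
  hb : 0 < b
  hv : 0 < v
  hs : 0 < Real.sin α
  hc : 0 < Real.cos α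
  hL : 0 < √(a ^ 2 + b ^ 2)
  hQ : 0 < a * (v / Real.cos α)
  hQP : a * (v / Real.cos α) < b * (v / Real.sin α)
  hP : b * (v / Real.sin α) < a * b
  hd : a * Real.sin α < b * Real.cos α

lemma facts {a b v α : ℝ} (h : Ok a b v α) : Fa a b v α := by
  obtain ⟨h1, h2, h3, h4, h5, h6, h7, h8⟩ := h
  have ha : 0 < a := by linarith
  have hb : 0 < b := by linarith
  have hv : 0 < v := by linarith
  have hs' : α - α ^ 3 / 6 < Real.sin α := Real.sin_gt_sub_cube (by linarith)
  have hs : 0.6 < Real.sin α := by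
    have : (0.6 : ℝ) < α - α ^ 3 / 6 := by nlinarith [mul_pos (sub_pos.2 h7) (sub_pos.2 h8)]
    linarith
  have hs2 : Real.sin α < α := Real.sin_lt (by linarith)
  have hc' : 1 - α ^ 2 / 2 ≤ Real.cos α := Real.one_sub_sq_div_two_le_cos
  have hc : 0.6 < Real.cos α := by nlinarith
  have hs0 : 0 < Real.sin α := by linarith
  have hc0 : 0 < Real.cos α := by linarith
  have hd : a * Real.sin α < b * Real.cos α := by nlinarith
  refine ⟨ha, hb, hv, hs0, hc0, by positivity, by positivity, ?_, ?_, hd⟩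
  · rw [← mul_div_assoc, ← mul_div_assoc, div_lt_div_iff₀ hc0 hs0]
    nlinarith
  · rw [← mul_div_assoc, div_lt_iff₀ hs0]
    have : v < a * Real.sin α := by nlinarith
    nlinarith

lemma step {a b v α : ℝ} (hL : 0 < √(a ^ 2 + b ^ 2)) {i i' : St} {X X' : ℝ} (j : Fin 5)
    (h1 : 0 < a * (G i (nS α j)).re + b * (G i (nS α j)).im)
    (h2 : FF a b (G i (vS a b v α j)) < X ∨ FF a b (G i (vS a b v α (j + 1))) < X)
    (h3 : X < FF a b (G i (vS a b v α j)) ∨ X < FF a b (G i (vS a b v α (j + 1))))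
    (h4 : i' = rs α j i) (h5 : X' = X - 2 * oS a b v j * FF a b (G i (nS α j))) :
    Stq a b v α (i, X / √(a ^ 2 + b ^ 2)) (i', X' / √(a ^ 2 + b ^ 2)) := by
  refine ⟨j, ?_, ?_⟩
  · rw [exit_iff hL]
    simp only
    rw [mul_div_cancel₀ _ hL.ne']
    exact ⟨h1, h2, h3⟩
  · rw [h4, h5]
    simp only [cr_eq]
    congr 1
    ring

/-- the last step before the chord, if it comes from the cut -/
lemma pre3 {a b v α : ℝ} (F : Fa a b v α) {i : St} {X : ℝ}
    (h1 : a * (G i (nS α 3)).re + b * (G i (nS α 3)).im < 0)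
    (h2 : FF a b (G i (vS a b v α 3)) < X ∨ FF a b (G i (vS a b v α 4)) < X)
    (h3 : X < FF a b (G i (vS a b v α 3)) ∨ X < FF a b (G i (vS a b v α 4))) :
    ∃ u' : ℝ, Stq a b v α (rs α 3 i, u') (i, X / √(a ^ 2 + b ^ 2)) := by
  have hL := F.hL
  have h0 : G (rs α 3 i) (nS α 3) = - G i (nS α 3) := by
    rw [G_rs _ _ _ _ (nn3 α), nn3 α]
    simp [two_smul]
  refine ⟨X / √(a ^ 2 + b ^ 2) - 2 * oS a b v 3 * cr (dd a b) (G i (nS α 3)), 3, ?_, ?_⟩
  · rw [ent_iff hL F.hs.ne' F.hc.ne']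
    simp only
    rw [h0, rs_rs _ _ _ (nn3 α)]
    have e : cr (dd a b) (-G i (nS α 3)) = - cr (dd a b) (G i (nS α 3)) := by
      simp [cr]; ring
    rw [e]
    have e2 : X / √(a ^ 2 + b ^ 2) - 2 * oS a b v 3 * cr (dd a b) (G i (nS α 3)) -
        2 * oS a b v 3 * -cr (dd a b) (G i (nS α 3)) = X / √(a ^ 2 + b ^ 2) := by ring
    rw [e2]
    unfold Ent
    rw [mul_div_cancel₀ _ hL.ne']
    exact ⟨h1, h2, h3⟩
  · simp only
    rw [h0, rs_rs _ _ _ (nn3 α)]
    have e : cr (dd a b) (-G i (nS α 3)) = - cr (dd a b) (G i (nS α 3)) := by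
      simp [cr]; ring
    rw [e]
    congr 1
    ring

lemma not_C0 {α : ℝ} (hs : Real.sin α ≠ 0) (hc : Real.cos α ≠ 0) (i : St) (hC : C0 i) :
    ¬ C0 (rs α 3 i) := by
  obtain ⟨w, τ⟩ := i
  unfold C0 at hC ⊢
  simp only at hC
  intro h
  have h4 : (nS α 3) ^ 4 = 1 := by
    cases τ
    · simp only [rs, Bool.false_eq_true, if_false] at h
      have : conj ((nS α 3) ^ 4) = 1 := by
        have e : conj ((nS α 3) ^ 4) = (conj ((nS α 3) ^ 2)) ^ 2 := by
          rw [← map_pow]; congr 1; ring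
        rw [e]
        calc (conj ((nS α 3) ^ 2)) ^ 2 = w ^ 2 * (conj ((nS α 3) ^ 2)) ^ 2 := by rw [hC]; ring
          _ = (-(w * conj ((nS α 3) ^ 2))) ^ 2 := by ring
          _ = 1 := h
      have := congrArg conj this
      rwa [Complex.conj_conj, map_one] at this
    · simp only [rs, if_true] at h
      calc (nS α 3) ^ 4 = w ^ 2 * (nS α 3) ^ 4 := by rw [hC]; ring
        _ = (-(w * (nS α 3) ^ 2)) ^ 2 := by ring
        _ = 1 := h
  have h5 : ((nS α 3) ^ 2 - 1) * ((nS α 3) ^ 2 + 1) = 0 := by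
    linear_combination h4
  have h6 : ((nS α 3) ^ 2).im = 0 := by
    rcases mul_eq_zero.1 h5 with h | h
    · rw [sub_eq_zero.1 h]; simp
    · rw [eq_neg_of_add_eq_zero_left h]; simp
  have h7 : ((nS α 3) ^ 2).im = 2 * (Real.sin α * Real.cos α) := by
    simp [nS, pow_two]; ring
  rw [h7] at h6
  have : Real.sin α * Real.cos α = 0 := by linarith
  rcases mul_eq_zero.1 this with h | h
  · exact hs h
  · exact hc h

/-- all the later chords have class zero -/
def Kf (a b v α : ℝ) (z : St × ℝ) : Prop := ∀ z' : St × ℝ, ReflTransGen (Stq a b v α) z z' → C0 z'.1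

/-- all the earlier chords have class zero -/
def Kb (a b v α : ℝ) (z : St × ℝ) : Prop := ∀ z' : St × ℝ, ReflTransGen (Stq a b v α) z' z → C0 z'.1

lemma Kf.next {a b v α : ℝ} {z z' : St × ℝ} (h : Kf a b v α z) (hz : Stq a b v α z z') : Kf a b v α z' :=
  fun w hw => h w (ReflTransGen.head hz hw)

lemma Kb.prev {a b v α : ℝ} {z z' : St × ℝ} (h : Kb a b v α z) (hz : Stq a b v α z' z) : Kb a b v α z' :=
  fun w hw => h w (ReflTransGen.tail hw hz)


section steps

variable {a b v α : ℝ}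

/-- class zero: the cut is left from `(1, true)` -/
lemma out1 (F : Fa a b v α) {X : ℝ} (h1 : -(a * (v / Real.cos α)) < X) (h2 : X < b * (v / Real.sin α)) :
    ¬ Kf a b v α ((1, true), X / √(a ^ 2 + b ^ 2)) := by
  intro h
  obtain ⟨ha, hb, hv, hs, hc, hL, hQ, hQP, hP, hd⟩ := F
  have e34 : (3 : Fin 5) + 1 = 4 := rfl
  have st := step (a := a) (b := b) (v := v) (α := α) hL (i := (1, true)) (X := X) 3
    (by simp [G, nS]; positivity)
    (by rw [e34]; left; simpa [G, vS, FF] using h1) (by rw [e34]; right; simpa [G, vS, FF] using h2) rfl rfl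
  exact not_C0 hs.ne' hc.ne' _ (by simp [C0]) (h _ (ReflTransGen.single st))

/-- class zero: the cut is left from `(-1, false)` -/
lemma out4 (F : Fa a b v α) {X : ℝ} (h1 : -(b * (v / Real.sin α)) < X) (h2 : X < -(a * (v / Real.cos α))) :
    ¬ Kf a b v α ((-1, false), X / √(a ^ 2 + b ^ 2)) := by
  intro h
  obtain ⟨ha, hb, hv, hs, hc, hL, hQ, hQP, hP, hd⟩ := F
  have e34 : (3 : Fin 5) + 1 = 4 := rfl
  have st := step (a := a) (b := b) (v := v) (α := α) hL (i := (-1, false)) (X := X) 3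
    (by simp [G, nS]; linarith)
    (by rw [e34]; right; simpa [G, vS, FF] using h1) (by rw [e34]; left; simpa [G, vS, FF] using h2) rfl rfl
  exact not_C0 hs.ne' hc.ne' _ (by simp [C0]) (h _ (ReflTransGen.single st))

/-- class zero: `(-1, true)` comes from the cut -/
lemma in2 (F : Fa a b v α) {X : ℝ} (h1 : -(b * (v / Real.sin α)) < X) (h2 : X < a * (v / Real.cos α)) :
    ¬ Kb a b v α ((-1, true), X / √(a ^ 2 + b ^ 2)) := by
  intro h
  obtain ⟨u', hu'⟩ := pre3 F (i := (-1, true)) (X := X)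
    (by obtain ⟨ha, hb, hv, hs, hc, hL, hQ, hQP, hP, hd⟩ := F
        simp [G, nS]
        have := mul_pos ha hs
        have := mul_pos hb hc
        linarith)
    (by right; simpa [G, vS, FF] using h1) (by left; simpa [G, vS, FF] using h2)
  exact not_C0 F.hs.ne' F.hc.ne' _ (by simp [C0]) (h _ (ReflTransGen.single hu'))

/-- class zero: `(1, false)` comes from the cut -/
lemma in3 (F : Fa a b v α) {X : ℝ} (h1 : a * (v / Real.cos α) < X) (h2 : X < b * (v / Real.sin α)) :
    ¬ Kb a b v α ((1, false), X / √(a ^ 2 + b ^ 2)) := by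
  intro h
  obtain ⟨u', hu'⟩ := pre3 F (i := (1, false)) (X := X)
    (by obtain ⟨ha, hb, hv, hs, hc, hL, hQ, hQP, hP, hd⟩ := F
        simp [G, nS]
        linarith)
    (by left; simpa [G, vS, FF] using h1) (by right; simpa [G, vS, FF] using h2)
  exact not_C0 F.hs.ne' F.hc.ne' _ (by simp [C0]) (h _ (ReflTransGen.single hu'))

/-- `(1, true)` to `(-1, false)` through the right side -/
lemma st12 (F : Fa a b v α) {X : ℝ} (h1 : -(a * b) < X) (h2 : X < -(a * (v / Real.cos α))) :
    Stq a b v α ((1, true), X / √(a ^ 2 + b ^ 2)) ((-1, false), X / √(a ^ 2 + b ^ 2)) := by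
  have e23 : (2 : Fin 5) + 1 = 3 := rfl
  refine step F.hL 2 ?_ (Or.inl ?_) (Or.inr ?_) ?_ ?_
  · have := F.ha
    simpa [G, nS] using this
  · simpa [G, vS, FF] using h1
  · rw [e23]; simpa [G, vS, FF] using h2
  · simp [rs, nS]
  · simp [oS]

/-- `(-1, true)` to `(-1, false)` through the bottom side -/
lemma st21 (F : Fa a b v α) {X Y : ℝ} (h1 : 0 < X) (h2 : X < a * b) (hY : Y = X - 2 * a * b) :
    Stq a b v α ((-1, true), X / √(a ^ 2 + b ^ 2)) ((-1, false), Y / √(a ^ 2 + b ^ 2)) := by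
  have e23 : (1 : Fin 5) + 1 = 2 := rfl
  refine step F.hL 1 ?_ (Or.inl ?_) (Or.inr ?_) ?_ ?_
  · have := F.hb
    simpa [G, nS] using this
  · simp [G, vS, FF]; nlinarith
  · rw [e23]; simpa [G, vS, FF] using h2
  · simp [rs, nS]
  · simp [oS, G, nS, FF]; linarith

/-- `(-1, false)` to `(1, true)` through the left side -/
lemma st40 (F : Fa a b v α) {X Y : ℝ} (h1 : -(2 * a * b) < X) (h2 : X < -(a * b)) (hY : Y = X + 2 * a * b) :
    Stq a b v α ((-1, false), X / √(a ^ 2 + b ^ 2)) ((1, true), Y / √(a ^ 2 + b ^ 2)) := by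
  have e23 : (0 : Fin 5) + 1 = 1 := rfl
  refine step F.hL 0 ?_ (Or.inr ?_) (Or.inl ?_) ?_ ?_
  · have := F.ha
    simpa [G, nS] using this
  · rw [e23]; simp [G, vS, FF]; linarith
  · simp [G, vS, FF]; linarith
  · simp [rs, nS]
  · simp [oS, G, nS, FF]; linarith

/-- `(1, false)` to `(1, true)` through the bottom side -/
lemma st31 (F : Fa a b v α) {X Y : ℝ} (h1 : a * b < X) (h2 : X < 2 * a * b) (hY : Y = X - 2 * a * b) :
    Stq a b v α ((1, false), X / √(a ^ 2 + b ^ 2)) ((1, true), Y / √(a ^ 2 + b ^ 2)) := by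
  have e23 : (1 : Fin 5) + 1 = 2 := rfl
  refine step F.hL 1 ?_ (Or.inr ?_) (Or.inl ?_) ?_ ?_
  · have := F.hb
    simpa [G, nS] using this
  · rw [e23]; simp [G, vS, FF]; linarith
  · simp [G, vS, FF]; linarith
  · simp [rs, nS]
  · simp [oS, G, nS, FF]; linarith

/-- `(-1, true)` to `(1, false)` through the left side -/
lemma st20 (F : Fa a b v α) {X Y : ℝ} (h1 : -(a * b) < X) (h2 : X < 0) (hY : Y = X + 2 * a * b) :
    Stq a b v α ((-1, true), X / √(a ^ 2 + b ^ 2)) ((1, false), Y / √(a ^ 2 + b ^ 2)) := by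
  have e23 : (0 : Fin 5) + 1 = 1 := rfl
  refine step F.hL 0 ?_ (Or.inl ?_) (Or.inr ?_) ?_ ?_
  · have := F.ha
    simpa [G, nS] using this
  · simp [G, vS, FF]; linarith
  · rw [e23]; simp [G, vS, FF]; nlinarith
  · simp [rs, nS]
  · simp [oS, G, nS, FF]; linarith

/-- `(1, false)` to `(-1, true)` through the right side -/
lemma st32 (F : Fa a b v α) {X : ℝ} (h1 : a * (v / Real.cos α) < X) (h2 : X < a * b) :
    Stq a b v α ((1, false), X / √(a ^ 2 + b ^ 2)) ((-1, true), X / √(a ^ 2 + b ^ 2)) := by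
  have e23 : (2 : Fin 5) + 1 = 3 := rfl
  refine step F.hL 2 ?_ (Or.inr ?_) (Or.inl ?_) ?_ ?_
  · have := F.ha
    simpa [G, nS] using this
  · rw [e23]; simpa [G, vS, FF] using h1
  · simpa [G, vS, FF] using h2
  · simp [rs, nS]
  · simp [oS]

lemma Kf1 (F : Fa a b v α) {X : ℝ} (h1 : -(b * (v / Real.sin α)) < X) (h2 : X < b * (v / Real.sin α))
    (h : Kf a b v α ((1, true), X / √(a ^ 2 + b ^ 2))) : X = -(a * (v / Real.cos α)) := by
  have F' := F
  obtain ⟨ha, hb, hv, hs, hc, hL, hQ, hQP, hP, hd⟩ := F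
  rcases lt_trichotomy X (-(a * (v / Real.cos α))) with k | k | k
  · exact absurd (h.next (st12 F' (by linarith) k)) (out4 F' h1 k)
  · exact k
  · exact absurd h (out1 F' k h2)

lemma Kb2 (F : Fa a b v α) {X : ℝ} (h1 : -(b * (v / Real.sin α)) < X) (h2 : X < b * (v / Real.sin α))
    (h : Kb a b v α ((-1, true), X / √(a ^ 2 + b ^ 2))) : X = a * (v / Real.cos α) := by
  have F' := F
  obtain ⟨ha, hb, hv, hs, hc, hL, hQ, hQP, hP, hd⟩ := F
  rcases lt_trichotomy X (a * (v / Real.cos α)) with k | k | k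
  · exact absurd h (in2 F' h1 k)
  · exact k
  · exact absurd (h.prev (st32 F' k (by linarith))) (in3 F' k h2)

lemma no1 (F : Fa a b v α) {X : ℝ} (h1 : -(b * (v / Real.sin α)) < X) (h2 : X < b * (v / Real.sin α))
    (h : Kf a b v α ((1, true), X / √(a ^ 2 + b ^ 2))) (h' : Kb a b v α ((1, true), X / √(a ^ 2 + b ^ 2))) :
    False := by
  have F' := F
  obtain ⟨ha, hb, hv, hs, hc, hL, hQ, hQP, hP, hd⟩ := F
  have e := Kf1 F' h1 h2 h
  have h3 := h'.prev (st31 F' (X := X + 2 * a * b) (by linarith) (by linarith) (by ring))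
  have h4 := h3.prev (st20 F' (X := X) (by linarith) (by linarith) rfl)
  have e' := Kb2 F' h1 h2 h4
  linarith

lemma no2 (F : Fa a b v α) {X : ℝ} (h1 : -(b * (v / Real.sin α)) < X) (h2 : X < b * (v / Real.sin α))
    (h : Kf a b v α ((-1, true), X / √(a ^ 2 + b ^ 2))) (h' : Kb a b v α ((-1, true), X / √(a ^ 2 + b ^ 2))) :
    False := by
  have F' := F
  obtain ⟨ha, hb, hv, hs, hc, hL, hQ, hQP, hP, hd⟩ := F
  have e := Kb2 F' h1 h2 h'
  have h3 := h.next (st21 F' (X := X) (Y := X - 2 * a * b) (by linarith) (by linarith) rfl)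
  have h4 := h3.next (st40 F' (Y := X) (by linarith) (by linarith) (by ring))
  have e' := Kf1 F' h1 h2 h4
  linarith

lemma no3 (F : Fa a b v α) {X : ℝ} (h1 : 2 * a * b - b * (v / Real.sin α) < X) (h2 : X < 2 * a * b)
    (h : Kf a b v α ((1, false), X / √(a ^ 2 + b ^ 2))) (h' : Kb a b v α ((1, false), X / √(a ^ 2 + b ^ 2))) :
    False := by
  have F' := F
  obtain ⟨ha, hb, hv, hs, hc, hL, hQ, hQP, hP, hd⟩ := F
  have h4 := h'.prev (st20 F' (X := X - 2 * a * b) (by linarith) (by linarith) (by ring))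
  exact in2 F' (by linarith) (by linarith) h4

lemma no4 (F : Fa a b v α) {X : ℝ} (h1 : -(2 * a * b) < X) (h2 : X < -(2 * a * b) + b * (v / Real.sin α))
    (h : Kf a b v α ((-1, false), X / √(a ^ 2 + b ^ 2))) (h' : Kb a b v α ((-1, false), X / √(a ^ 2 + b ^ 2))) :
    False := by
  have F' := F
  obtain ⟨ha, hb, hv, hs, hc, hL, hQ, hQP, hP, hd⟩ := F
  have h4 := h.next (st40 F' (Y := X + 2 * a * b) (by linarith) (by linarith) (by ring))
  exact out1 F' (by linarith) (by linarith) h4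

end steps

/-- class zero and outside the strips of the cut -/
def Good (a b v α : ℝ) (z : St × ℝ) : Prop :=
  C0 z.1 ∧ ∀ m : ℤ, b * (v / Real.sin α) ≤ |√(a ^ 2 + b ^ 2) * z.2 - 2 * a * b * m|

lemma C0_cases {i : St} (h : C0 i) : i = (1, true) ∨ i = (-1, true) ∨ i = (1, false) ∨ i = (-1, false) := by
  obtain ⟨w, τ⟩ := i
  have h' : (w - 1) * (w + 1) = 0 := by
    unfold C0 at h; simp only at h; linear_combination h
  rcases mul_eq_zero.1 h' with k | k
  · rw [sub_eq_zero.1 k]; cases τ <;> simp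
  · rw [eq_neg_of_add_eq_zero_left k]; cases τ <;> simp

lemma not_ent {a b v α : ℝ} (F : Fa a b v α) {i : St} {u : ℝ} (h : Good a b v α (i, u)) :
    ¬ Ent a b v α i u := by
  obtain ⟨ha, hb, hv, hs, hc, hL, hQ, hQP, hP, hd⟩ := F
  obtain ⟨hC, hm⟩ := h
  have h0 := hm 0
  simp only [Int.cast_zero, mul_zero, sub_zero] at h0
  have p1 := mul_pos ha hs
  have p2 := mul_pos hb hc
  rintro ⟨k1, k2, k3⟩
  rcases C0_cases hC with rfl | rfl | rfl | rfl
  · simp [G, nS] at k1
    linarith
  · simp [G, vS, FF] at k2 k3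
    rcases le_abs'.1 h0 with k | k <;> rcases k2 with k2 | k2 <;> rcases k3 with k3 | k3 <;> linarith
  · simp [G, vS, FF] at k2 k3
    rcases le_abs'.1 h0 with k | k <;> rcases k2 with k2 | k2 <;> rcases k3 with k3 | k3 <;> linarith
  · simp [G, nS] at k1
    linarith

lemma not_exit {a b v α : ℝ} (F : Fa a b v α) {i : St} {u : ℝ} (h : Good a b v α (i, u)) :
    ¬ Exit a b v α i u 3 := by
  rw [exit_iff F.hL]
  obtain ⟨ha, hb, hv, hs, hc, hL, hQ, hQP, hP, hd⟩ := F
  obtain ⟨hC, hm⟩ := h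
  have h0 := hm 0
  simp only [Int.cast_zero, mul_zero, sub_zero] at h0
  have p1 := mul_pos ha hs
  have p2 := mul_pos hb hc
  have e34 : (3 : Fin 5) + 1 = 4 := rfl
  rw [e34]
  rintro ⟨k1, k2, k3⟩
  rcases C0_cases hC with rfl | rfl | rfl | rfl
  · simp [G, vS, FF] at k2 k3
    rcases le_abs'.1 h0 with k | k <;> rcases k2 with k2 | k2 <;> rcases k3 with k3 | k3 <;> linarith
  · simp [G, nS] at k1
    linarith
  · simp [G, nS] at k1
    linarith
  · simp [G, vS, FF] at k2 k3
    rcases le_abs'.1 h0 with k | k <;> rcases k2 with k2 | k2 <;> rcases k3 with k3 | k3 <;> linarith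

lemma n4 (α : ℝ) (j : Fin 5) (hj : j ≠ 3) : (nS α j) ^ 4 = 1 := by
  fin_cases j
  · simp [nS]; try norm_num
  · simp only [nS]
    rw [show (![-1, -Complex.I, 1, ⟨Real.sin α, Real.cos α⟩, Complex.I] : Fin 5 → ℂ) ⟨1, by decide⟩ = -Complex.I from rfl,
      show (-Complex.I) ^ 4 = (Complex.I ^ 2) ^ 2 by ring, Complex.I_sq]
    norm_num
  · simp [nS]
  · exact absurd rfl hj
  · simp [nS]

lemma C0_rs {α : ℝ} {j : Fin 5} (hj : j ≠ 3) (i : St) : C0 (rs α j i) ↔ C0 i := by
  obtain ⟨w, τ⟩ := i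
  have h := n4 α j hj
  unfold C0
  cases τ
  · simp only [rs, Bool.false_eq_true, if_false]
    have e : (-(w * conj ((nS α j) ^ 2))) ^ 2 = w ^ 2 := by
      have : (conj ((nS α j) ^ 2)) ^ 2 = 1 := by
        rw [← map_pow, ← pow_mul, h, map_one]
      calc (-(w * conj ((nS α j) ^ 2))) ^ 2 = w ^ 2 * (conj ((nS α j) ^ 2)) ^ 2 := by ring
        _ = w ^ 2 := by rw [this, mul_one]
    rw [e]
  · simp only [rs, if_true]
    have e : (-(w * (nS α j) ^ 2)) ^ 2 = w ^ 2 := by
      calc (-(w * (nS α j) ^ 2)) ^ 2 = w ^ 2 * (nS α j) ^ 4 := by ring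
        _ = w ^ 2 := by rw [h, mul_one]
    rw [e]

lemma shift {a b v α : ℝ} (F : Fa a b v α) {j : Fin 5} (hj : j ≠ 3) {i : St} (hC : C0 i) (u : ℝ) :
    ∃ m : ℤ, √(a ^ 2 + b ^ 2) * (u - 2 * oS a b v j * cr (dd a b) (G i (nS α j))) =
      √(a ^ 2 + b ^ 2) * u + 2 * a * b * m := by
  have hL := F.hL
  have e : √(a ^ 2 + b ^ 2) * (u - 2 * oS a b v j * cr (dd a b) (G i (nS α j))) =
      √(a ^ 2 + b ^ 2) * u - 2 * oS a b v j * FF a b (G i (nS α j)) := by
    rw [cr_eq]; field_simp
  rw [e]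
  fin_cases j
  · rcases C0_cases hC with rfl | rfl | rfl | rfl
    · refine ⟨-1, ?_⟩; simp [G, nS, FF, oS]; try ring
    · refine ⟨1, ?_⟩; simp [G, nS, FF, oS]; try ring
    · refine ⟨-1, ?_⟩; simp [G, nS, FF, oS]; try ring
    · refine ⟨1, ?_⟩; simp [G, nS, FF, oS]; try ring
  · rcases C0_cases hC with rfl | rfl | rfl | rfl
    · refine ⟨1, ?_⟩; simp [G, nS, FF, oS]; try ring
    · refine ⟨-1, ?_⟩; simp [G, nS, FF, oS]; try ring
    · refine ⟨-1, ?_⟩; simp [G, nS, FF, oS]; try ring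
    · refine ⟨1, ?_⟩; simp [G, nS, FF, oS]; try ring
  · refine ⟨0, ?_⟩; simp [oS]
  · exact absurd rfl hj
  · refine ⟨0, ?_⟩; simp [oS]

lemma Good.next {a b v α : ℝ} (F : Fa a b v α) {z z' : St × ℝ} (h : Good a b v α z)
    (hz : Stq a b v α z z') : Good a b v α z' := by
  obtain ⟨i, u⟩ := z
  obtain ⟨j, hj, rfl⟩ := hz
  by_cases h3 : j = 3
  · subst h3; exact absurd hj (not_exit F h)
  · refine ⟨(C0_rs h3 i).2 h.1, fun m => ?_⟩
    obtain ⟨m', hm'⟩ := shift F h3 h.1 u
    simp only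
    rw [hm']
    have := h.2 (m - m')
    simp only at this
    push_cast at this
    rwa [show √(a ^ 2 + b ^ 2) * u - 2 * a * b * (m - m') =
      √(a ^ 2 + b ^ 2) * u + 2 * a * b * m' - 2 * a * b * m by ring] at this

lemma Good.prev {a b v α : ℝ} (F : Fa a b v α) {z z' : St × ℝ} (h : Good a b v α z')
    (hz : Stq a b v α z z') : Good a b v α z := by
  obtain ⟨i, u⟩ := z
  obtain ⟨j, hj, rfl⟩ := hz
  by_cases h3 : j = 3
  · subst h3
    exact absurd ((ent_iff F.hL F.hs.ne' F.hc.ne' i u).1 hj) (not_ent F h)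
  · have hC : C0 i := (C0_rs h3 i).1 h.1
    refine ⟨hC, fun m => ?_⟩
    obtain ⟨m', hm'⟩ := shift F h3 hC u
    simp only
    have := h.2 (m + m')
    simp only at this
    rw [hm'] at this
    push_cast at this
    rwa [show √(a ^ 2 + b ^ 2) * u + 2 * a * b * m' - 2 * a * b * (m + m') =
      √(a ^ 2 + b ^ 2) * u - 2 * a * b * m by ring] at this

lemma Good.K0 {a b v α : ℝ} (F : Fa a b v α) {z : St × ℝ} (h : Good a b v α z) : K0 a b v α z := by
  intro z' hz
  rcases hz with hz | hz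
  · have : Good a b v α z' := by
      induction hz with
      | refl => exact h
      | tail _ hs ih => exact ih.next F hs
    exact this.1
  · have : Good a b v α z' := by
      induction hz using ReflTransGen.head_induction_on with
      | refl => exact h
      | head hs _ ih => exact ih.prev F hs
    exact this.1

theorem t_KZ : S_EX → S_KZ := by
  intro _ a b v α h q hR i u _ hIn
  obtain ⟨hOk, -⟩ := hR
  have F := facts hOk
  have F' := F
  obtain ⟨ha, hb, hv, hs, hc, hL, hQ, hQP, hP, hd⟩ := F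
  constructor
  · intro hK
    have hC : C0 i := hK (i, u) (Or.inl ReflTransGen.refl)
    refine ⟨hC, fun m => ?_⟩
    by_contra hlt
    rw [not_le, mul_div_assoc] at hlt
    have hf : Kf a b v α (i, u) := fun z' hz => hK z' (Or.inl hz)
    have hg : Kb a b v α (i, u) := fun z' hz => hK z' (Or.inr hz)
    obtain ⟨X, rfl⟩ : ∃ X : ℝ, u = X / √(a ^ 2 + b ^ 2) :=
      ⟨√(a ^ 2 + b ^ 2) * u, by field_simp⟩
    rw [mul_div_cancel₀ _ hL.ne'] at hlt
    obtain ⟨l1, l2⟩ := abs_lt.1 hlt
    obtain ⟨⟨k, hk⟩, ⟨k', hk'⟩⟩ := hIn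
    rw [uu_eq, div_lt_div_iff_of_pos_right hL] at hk hk'
    have hab : 0 < a * b := by positivity
    rcases C0_cases hC with rfl | rfl | rfl | rfl
    · have b1 : -(a * b) < X := by
        fin_cases k <;> simp [G, vS, FF] at hk <;> linarith
      have b2 : X < a * b := by
        fin_cases k' <;> simp [G, vS, FF] at hk' <;> linarith
      have hm : m = 0 := by
        have h1 : (m : ℝ) < 1 := by
          by_contra hh
          have := mul_le_mul_of_nonneg_left (not_lt.1 hh) hab.le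
          linarith
        have h2 : (-1 : ℝ) < m := by
          by_contra hh
          have := mul_le_mul_of_nonneg_left (not_lt.1 hh) hab.le
          linarith
        have h1' : m < 1 := by exact_mod_cast h1
        have h2' : -1 < m := by exact_mod_cast h2
        omega
      subst hm
      simp only [Int.cast_zero, mul_zero, sub_zero] at l1 l2
      exact no1 F' l1 l2 hf hg
    · have b1 : -(a * b) < X := by
        fin_cases k <;> simp [G, vS, FF] at hk <;> linarith
      have b2 : X < a * b := by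
        fin_cases k' <;> simp [G, vS, FF] at hk' <;> linarith
      have hm : m = 0 := by
        have h1 : (m : ℝ) < 1 := by
          by_contra hh
          have := mul_le_mul_of_nonneg_left (not_lt.1 hh) hab.le
          linarith
        have h2 : (-1 : ℝ) < m := by
          by_contra hh
          have := mul_le_mul_of_nonneg_left (not_lt.1 hh) hab.le
          linarith
        have h1' : m < 1 := by exact_mod_cast h1
        have h2' : -1 < m := by exact_mod_cast h2
        omega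
      subst hm
      simp only [Int.cast_zero, mul_zero, sub_zero] at l1 l2
      exact no2 F' l1 l2 hf hg
    · have b1 : a * (v / Real.cos α) < X := by
        fin_cases k <;> simp [G, vS, FF] at hk <;> linarith
      have b2 : X < 2 * a * b := by
        fin_cases k' <;> simp [G, vS, FF] at hk' <;> linarith
      have hm : m = 0 ∨ m = 1 := by
        have h1 : (m : ℝ) < 2 := by
          by_contra hh
          have := mul_le_mul_of_nonneg_left (not_lt.1 hh) hab.le
          linarith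
        have h2 : (-1 : ℝ) < m := by
          by_contra hh
          have := mul_le_mul_of_nonneg_left (not_lt.1 hh) hab.le
          linarith
        have h1' : m < 2 := by exact_mod_cast h1
        have h2' : -1 < m := by exact_mod_cast h2
        omega
      rcases hm with rfl | rfl
      · simp only [Int.cast_zero, mul_zero, sub_zero] at l1 l2
        exact in3 F' b1 l2 hg
      · simp only [Int.cast_one, mul_one] at l1 l2
        exact no3 F' (by linarith) b2 hf hg
    · have b1 : -(2 * a * b) < X := by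
        fin_cases k <;> simp [G, vS, FF] at hk <;> linarith
      have b2 : X < -(a * (v / Real.cos α)) := by
        fin_cases k' <;> simp [G, vS, FF] at hk' <;> linarith
      have hm : m = 0 ∨ m = -1 := by
        have h1 : (m : ℝ) < 1 := by
          by_contra hh
          have := mul_le_mul_of_nonneg_left (not_lt.1 hh) hab.le
          linarith
        have h2 : (-2 : ℝ) < m := by
          by_contra hh
          have := mul_le_mul_of_nonneg_left (not_lt.1 hh) hab.le
          linarith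
        have h1' : m < 1 := by exact_mod_cast h1
        have h2' : -2 < m := by exact_mod_cast h2
        omega
      rcases hm with rfl | rfl
      · simp only [Int.cast_zero, mul_zero, sub_zero] at l1 l2
        exact out4 F' l1 b2 hf
      · simp only [Int.cast_neg, Int.cast_one, mul_neg, mul_one, sub_neg_eq_add] at l1 l2
        exact no4 F' b1 (by linarith) hf hg
  · rintro ⟨hC, hm⟩
    refine Good.K0 F' ⟨hC, fun m => ?_⟩
    rw [← mul_div_assoc]
    exact hm m

end Pool.Agent.U55.BM.KZ
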